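import Mathlib
import Pool.Agent.V7H42.KR.Spec3
import Pool.Agent.V7H79.EW.Cnd

set_option autoImplicit false

/-! MP_600e55_nt, piece MLE of helper42: the maximal ideal lies in `I`. -/

namespace Pool.Agent.V7H79.KR

open Pool.Agent.Y920.EP
open Pool.Agent.V7H79.EW (II Dt Dd interp ii_prime ii_inv ii_pow dd_ii)

theorem t_MLE : Pool.Agent.V7H42.KR.S_MLE := by
  intro F _ p hp hp0 T hT O' hpO R hRO hTR J hRJ hJ u hu hui huJ
  have hD : Dt p T O' := ⟨hp.one_le, hp0, fun z => hT ⟨z, rfl⟩, hpO⟩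
  have hpow : ∀ z ∈ O', z ^ p ∈ R := by
    intro z hz
    by_cases h0 : z = 0
    · rw [h0, zero_pow hp.ne_zero]
      exact zero_mem _
    obtain ⟨y, rfl⟩ : ∃ y : Fˣ, (y : F) = z := ⟨Units.mk0 _ h0, rfl⟩
    have h1 := hTR (y ^ p) (hD.pT y) (by rw [Units.val_pow_eq_pow_val]; exact pow_mem hz p)
    rwa [Units.val_pow_eq_pow_val] at h1
  have hw : (u : F) ^ p ∈ R := hpow _ hu
  have hv : O'.valuation ((u : F) ^ p) < 1 := by
    rw [map_pow]
    refine pow_lt_one₀ zero_le ?_ hp.ne_zero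
    rw [← ValuationSubring.valuation_le_one_iff] at hu hui
    refine lt_of_le_of_ne hu fun h1 => hui ?_
    rw [map_inv₀, h1, inv_one]
  have h1 : Dd p ((u : F) ^ p) * p * (u : F) ^ p ∈ II T O' := by
    intro z hz
    have h2 := interp (z := z) hp.one_le hw fun i => hpow _ (add_mem (pow_mem (hRO _ hw) i) hz)
    obtain ⟨t, ht, e, -, -⟩ := hJ _ (hRJ _ h2 _ huJ)
    refine ⟨t, ht, ?_⟩
    rw [e]
    ring
  have h2 : (u : F) ^ p ∈ II T O' := by
    rcases ii_prime hD h1 with h3 | h3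
    · rcases ii_prime hD h3 with h4 | h4
      · exact dd_ii hD hv h4
      · exact absurd hD.pO (ii_inv h4 hD.p0)
    · exact h3
  exact ii_pow hD p h2

end Pool.Agent.V7H79.KR
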