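import Mathlib
import Pool.Agent.V7H42.KR.Spec3
import Pool.Agent.V7H79.EW.Cnd

set_option autoImplicit false

/-! MP_600e55_nt, piece INTF of helper42: a subfield that contains all `p`-th powers. -/

namespace Pool.Agent.V7H79.KR

open Pool.Agent.V7H79.EW (Dd ex interp)

theorem t_INTF : Pool.Agent.V7H42.KR.S_INTF := by
  intro k _ p hp hp0 hk L hL
  classical
  have hLinf : (L : Set k).Infinite := by
    have h1 : (Set.range fun x : k => x ^ p).Infinite := by
      intro hfin
      have h2 : (Set.univ : Set k).Finite := by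
        refine Set.Finite.subset (hfin.biUnion (t := fun y => {x : k | x ^ p = y}) ?_) ?_
        · intro y _
          have h3 : {x : k | x ^ p = y} ⊆ ((Polynomial.X ^ p - Polynomial.C y).rootSet k) := by
            intro x hx
            rw [Polynomial.mem_rootSet]
            refine ⟨Polynomial.X_pow_sub_C_ne_zero hp.pos y, ?_⟩
            have : x ^ p = y := hx
            simp [this]
          exact (Polynomial.rootSet_finite _ _).subset h3
        · intro x _
          rw [Set.mem_iUnion₂]
          exact ⟨x ^ p, ⟨x, rfl⟩, rfl⟩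
      exact Set.infinite_univ h2
    refine h1.mono ?_
    rintro _ ⟨x, rfl⟩
    exact hL x
  obtain ⟨u, huL, hu⟩ : ∃ u ∈ L, Dd p u ≠ 0 := by
    obtain ⟨P, hP⟩ : ∃ P : Polynomial k, P = ∏ j ∈ ex p,
      ((Polynomial.X : Polynomial k) ^ (p - 1) - Polynomial.X ^ j) := ⟨_, rfl⟩
    have hP0 : P ≠ 0 := by
      rw [hP, Finset.prod_ne_zero_iff]
      intro j hj h1
      have h2 : j ≠ p - 1 := Finset.ne_of_mem_erase hj
      rw [sub_eq_zero] at h1
      have h3 := congrArg Polynomial.natDegree h1
      rw [Polynomial.natDegree_X_pow, Polynomial.natDegree_X_pow] at h3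
      exact h2 h3.symm
    have hfin : {x : k | P.eval x = 0}.Finite := by
      have h1 : {x : k | P.eval x = 0} ⊆ P.rootSet k := by
        intro x hx
        rw [Polynomial.mem_rootSet]
        refine ⟨hP0, ?_⟩
        rw [Polynomial.aeval_def, Polynomial.eval₂_eq_eval_map, Algebra.algebraMap_self,
          Polynomial.map_id]
        exact hx
      exact (Polynomial.rootSet_finite _ _).subset h1
    obtain ⟨u, hu1, hu2⟩ := (hLinf.sdiff hfin).nonempty
    refine ⟨u, hu1, fun h => hu2 ?_⟩
    show P.eval u = 0
    rw [hP, Polynomial.eval_prod, ← h, Dd]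
    refine Finset.prod_congr rfl fun j _ => ?_
    rw [Polynomial.eval_sub, Polynomial.eval_pow, Polynomial.eval_pow, Polynomial.eval_X]
  rw [eq_top_iff]
  intro z _
  have h1 := interp (R := L.toSubring) (z := z) hp.one_le huL fun i => hL _
  have h1' : Dd p u * (p * z) ∈ L := h1
  have h2 : Dd p u ∈ L := by
    rw [Dd]
    exact prod_mem fun j _ => sub_mem (pow_mem huL _) (pow_mem huL _)
  have h3 : (p : k) ∈ L := natCast_mem L p
  have h4 : (Dd p u * p)⁻¹ * (Dd p u * (p * z)) = z := by
    field_simp
  rw [← h4]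
  exact mul_mem (inv_mem (mul_mem h2 h3)) h1'

end Pool.Agent.V7H79.KR
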